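import Pool.Agent.Shared.Kuhn.Stokes

/-!
Sperner lemma, KKM lemma, Brouwer fixed point theorem (simplex and box) and the
Poincare-Miranda theorem in every finite dimension.
-/

set_option autoImplicit false
set_option linter.unusedSectionVars false
set_option linter.unusedVariables false

namespace Pool.Agent.Shared.Kuhn

open Finset Equiv

variable {I : Type*} [Fintype I] [DecidableEq I]

lemma count_facets {L : Type*} [DecidableEq L] (J : Finset I) (K : Finset L) (f : I → L)
    (hcard : J.card = K.card + 1) :
    (∑ j ∈ J, if (J.erase j).image f = K then (1 : ZMod 2) else 0) =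
      if K ⊆ J.image f ∧ ¬ J.image f ⊆ K then 1 else 0 := by
  by_cases hex : ∃ j ∈ J, (J.erase j).image f = K
  · obtain ⟨j1, hj1, hK⟩ := hex
    have hinj : Set.InjOn f (J.erase j1 : Finset I) := by
      rw [← Finset.card_image_iff, hK, card_erase_of_mem hj1]; omega
    have hKJ : K ⊆ J.image f := hK ▸ image_subset_image (erase_subset _ _)
    have key : ∀ j ∈ J, j ≠ j1 → ((J.erase j).image f = K ↔ f j = f j1) := by
      intro j hj hne
      constructor
      · intro h
        have : f j ∈ (J.erase j).image f := by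
          rw [h, ← hK]; exact mem_image_of_mem _ (mem_erase.2 ⟨hne, hj⟩)
        obtain ⟨b, hb, hfb⟩ := mem_image.1 this
        by_cases hb1 : b = j1
        · rw [← hfb, hb1]
        · exact absurd (hinj (mem_coe.2 (mem_erase.2 ⟨hb1, (mem_erase.1 hb).2⟩))
            (mem_coe.2 (mem_erase.2 ⟨hne, hj⟩)) hfb) (mem_erase.1 hb).1
      · intro h
        rw [← hK]
        ext y
        simp only [mem_image, mem_erase]
        constructor
        · rintro ⟨a, ⟨haj, ha⟩, rfl⟩
          by_cases ha1 : a = j1
          · exact ⟨j, ⟨hne, hj⟩, by rw [h, ha1]⟩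
          · exact ⟨a, ⟨ha1, ha⟩, rfl⟩
        · rintro ⟨a, ⟨ha1, ha⟩, rfl⟩
          by_cases haj : a = j
          · exact ⟨j1, ⟨hne.symm, hj1⟩, by rw [← h, haj]⟩
          · exact ⟨a, ⟨haj, ha⟩, rfl⟩
    rw [← Finset.add_sum_erase J _ hj1, if_pos hK]
    by_cases h1 : f j1 ∈ K
    · have hsub : J.image f ⊆ K := by
        intro y hy
        obtain ⟨a, ha, rfl⟩ := mem_image.1 hy
        by_cases ha1 : a = j1
        · rwa [ha1]
        · rw [← hK]; exact mem_image_of_mem _ (mem_erase.2 ⟨ha1, ha⟩)
      rw [if_neg (fun h => h.2 hsub)]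
      rw [← hK] at h1
      obtain ⟨j2, hj2, hf2⟩ := mem_image.1 h1
      rw [Finset.sum_eq_single j2]
      · rw [if_pos ((key j2 (mem_erase.1 hj2).2 (mem_erase.1 hj2).1).2 hf2)]
        exact CharTwo.add_self_eq_zero _
      · intro b hb hne
        rw [if_neg]
        intro h
        have := (key b (mem_erase.1 hb).2 (mem_erase.1 hb).1).1 h
        exact hne (hinj (mem_coe.2 hb) (mem_coe.2 hj2)
          (this.trans hf2.symm))
      · intro h; exact absurd hj2 h
    · rw [if_pos ⟨hKJ, fun h => h1 (h (mem_image_of_mem _ hj1))⟩, Finset.sum_eq_zero, add_zero]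
      intro b hb
      rw [if_neg]
      intro h
      have := (key b (mem_erase.1 hb).2 (mem_erase.1 hb).1).1 h
      apply h1
      rw [← this, ← hK]
      exact mem_image_of_mem _ hb
  · push Not at hex
    rw [Finset.sum_eq_zero (fun j hj => if_neg (hex j hj)), if_neg]
    rintro ⟨h1, h2⟩
    obtain ⟨y, hy, hyK⟩ := not_subset.1 h2
    obtain ⟨a, ha, rfl⟩ := mem_image.1 hy
    apply hex a ha
    symm
    apply Finset.eq_of_subset_of_card_le
    · intro k hk
      obtain ⟨b, hb, rfl⟩ := mem_image.1 (h1 hk)
      exact mem_image_of_mem _ (mem_erase.2 ⟨fun h => hyK (h ▸ hk), hb⟩)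
    · have := card_image_le (s := J.erase a) (f := f)
      rw [card_erase_of_mem ha] at this
      omega

lemma Dom.mono {J J' : Finset I} {n : ℕ} {u : I → ℤ} (h : Dom J n u) (hJ : J ⊆ J') :
    Dom J' n u := ⟨h.nonneg, fun x hx => h.supp x fun hh => hx (hJ hh), h.sum⟩

lemma Dom.mem_of_pos {J : Finset I} {n : ℕ} {u : I → ℤ} (h : Dom J n u) {x : I} (hx : 0 < u x) :
    x ∈ J := by
  by_contra hn
  rw [h.supp x hn] at hx
  exact lt_irrefl _ hx

/-- Sperner lemma: the number of completely labelled simplices is odd -/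
theorem sperner {n : ℕ} (hn : 1 ≤ n) (l : (I → ℤ) → I) (k : ℕ) :
    ∀ (J : Finset I) (c : Perm I), J.card = k + 1 → Cyc J c →
      (∀ u, Dom J n u → 0 < u (l u)) →
      (∑ σ ∈ S J c n, if (J.image σ.1).image l = J then (1 : ZMod 2) else 0) = 1 := by
  induction k with
  | zero =>
    intro J c hJ hc hl
    obtain ⟨a, rfl⟩ := card_eq_one.1 hJ
    have hca : c a = a := by simpa using mem_of_fix hc.fix (mem_singleton_self a)
    have hd : Dom {a} n (fun x => if x = a then (n : ℤ) else 0) :=
      ⟨fun x => by split_ifs <;> omega, fun x hx => if_neg (by simpa using hx), by simp⟩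
    have hS : S {a} c n =
        {(Function.update (0 : I → I → ℤ) a (fun x => if x = a then (n : ℤ) else 0), 1)} := by
      ext ⟨v, s⟩
      rw [mem_S, mem_singleton]
      constructor
      · intro h
        refine Prod.ext ?_ ?_
        · funext b
          by_cases hb : b = a
          · subst hb
            simp only [Function.update_self]
            funext x
            have hdb := h.dom b (mem_singleton_self b)
            split_ifs with hx
            · subst hx
              have := hdb.sum
              rw [Finset.sum_eq_single x (fun y _ hy => hdb.supp y (by simpa using hy))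
                (by simp)] at this
              exact this
            · exact hdb.supp x (by simpa using hx)
          · simp only [Function.update_of_ne hb]
            exact h.zero b (by simpa using hb)
        · ext b
          by_cases hb : b = a
          · subst hb
            simpa using mem_of_fix h.fix (mem_singleton_self b)
          · exact h.fix b (by simpa using hb)
      · intro h
        rw [h]
        refine ⟨fun b _ => rfl, fun b hb => ?_, fun b hb => ?_, fun b hb => ?_⟩
        · exact Function.update_of_ne (by simpa using hb) _ _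
        · rw [mem_singleton.1 hb]; simpa using hd
        · rw [mem_singleton.1 hb]; simp [hca]
    rw [hS, sum_singleton, if_pos]
    have := hd.mem_of_pos (hl _ hd)
    simpa using this
  | succ k ih =>
    intro J c hJ hc hl
    obtain ⟨j0, hj0⟩ : J.Nonempty := card_pos.1 (by omega)
    have hst := stokes hc (by omega) hn
      (fun T => if T.image l = J.erase j0 then (1 : ZMod 2) else 0)
    rw [Finset.sum_eq_single j0, ih (J.erase j0) (skip c j0)
      (by rw [card_erase_of_mem hj0]; omega) (hc.skip hj0)
      (fun u hu => hl u (hu.mono (erase_subset _ _)))] at hst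
    · refine Eq.trans (Finset.sum_congr rfl fun σ hσ => ?_) hst
      have h := mem_S.1 hσ
      simp only [Finset.image_image]
      rw [count_facets J (J.erase j0) (l ∘ σ.1) (by rw [card_erase_of_mem hj0]; omega)]
      have hsub : J.image (l ∘ σ.1) ⊆ J := by
        intro y hy
        obtain ⟨a, ha, rfl⟩ := mem_image.1 hy
        exact (h.dom a ha).mem_of_pos (hl _ (h.dom a ha))
      congr 1
      apply propext
      constructor
      · intro h1
        rw [h1]
        exact ⟨erase_subset _ _, fun h2 => by simpa using h2 hj0⟩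
      · rintro ⟨h1, h2⟩
        apply Finset.Subset.antisymm hsub
        intro y hy
        by_cases hy0 : y = j0
        · obtain ⟨z, hz, hz'⟩ := not_subset.1 h2
          have : z = j0 := by
            by_contra hne
            exact hz' (mem_erase.2 ⟨hne, hsub hz⟩)
          rw [hy0, ← this]; exact hz
        · exact h1 (mem_erase.2 ⟨hy0, hy⟩)
    · intro j hj hne
      refine Finset.sum_eq_zero fun τ hτ => if_neg fun h => ?_
      have hτ' := mem_S.1 hτ
      have : j ∈ ((J.erase j).image τ.1).image l := by rw [h]; exact mem_erase.2 ⟨hne, hj⟩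
      rw [Finset.image_image] at this
      obtain ⟨a, ha, hal⟩ := mem_image.1 this
      have hd := hτ'.dom a ha
      have := hd.mem_of_pos (hl _ (hd.mono (erase_subset _ _)))
      simp only [Function.comp_apply] at hal
      rw [hal] at this
      simp at this
    · intro h; exact absurd hj0 h

lemma exists_cyc (J : Finset I) : ∃ c : Perm I, Cyc J c := by
  obtain ⟨f, hf, hs⟩ := Finset.exists_cycleOn J
  refine ⟨f, fun a ha => ?_, fun B hB hinv => ?_⟩
  · by_contra h
    exact ha (hs (Perm.mem_support.2 h))
  · rcases B.eq_empty_or_nonempty with h | ⟨a, ha⟩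
    · exact Or.inl h
    · right
      refine Finset.Subset.antisymm hB fun b hb => ?_
      obtain ⟨m, -, rfl⟩ := hf.exists_pow_eq (hB ha) hb
      induction m with
      | zero => simpa using ha
      | succ m ih =>
        rw [pow_succ', Perm.mul_apply]
        apply hinv
        apply ih
        have := hf.1.mapsTo
        clear ih hb
        induction m with
        | zero => simpa using hB ha
        | succ m ih => rw [pow_succ', Perm.mul_apply]; exact this ih

/-- the point of the standard simplex attached to a lattice point -/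
noncomputable def pt (n : ℕ) (u : I → ℤ) : I → ℝ := fun x => (u x : ℝ) / n

lemma pt_mem {J : Finset I} {n : ℕ} (hn : 1 ≤ n) {u : I → ℤ} (h : Dom J n u) :
    pt n u ∈ stdSimplex ℝ I := by
  have hn' : (0 : ℝ) < n := by exact_mod_cast hn
  refine ⟨fun x => div_nonneg (by exact_mod_cast h.nonneg x) hn'.le, ?_⟩
  simp only [pt]
  rw [← Finset.sum_div, ← Int.cast_sum, h.sum]
  simp [hn'.ne']

lemma dist_pt_le {n : ℕ} (hn : 1 ≤ n) {u w : I → ℤ} (h1 : ∀ x, u x ≤ w x + 1)
    (h2 : ∀ x, w x ≤ u x + 1) : dist (pt n u) (pt n w) ≤ 1 / n := by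
  have hn' : (0 : ℝ) < n := by exact_mod_cast hn
  refine (dist_pi_le_iff (by positivity)).2 fun x => ?_
  rw [Real.dist_eq, pt, pt, ← sub_div, abs_div, abs_of_pos hn']
  apply div_le_div_of_nonneg_right _ hn'.le
  have a1 : (u x : ℝ) ≤ w x + 1 := by exact_mod_cast h1 x
  have a2 : (w x : ℝ) ≤ u x + 1 := by exact_mod_cast h2 x
  rw [abs_le]; constructor <;> linarith

/-- KKM lemma -/
theorem kkm [Nonempty I] (A : I → Set (I → ℝ)) (hA : ∀ i, IsClosed (A i))
    (hcov : ∀ x ∈ stdSimplex ℝ I, ∃ i, 0 < x i ∧ x ∈ A i) :
    ∃ x ∈ stdSimplex ℝ I, ∀ i, x ∈ A i := by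
  classical
  obtain ⟨c, hc⟩ := exists_cyc (univ : Finset I)
  have hstep : ∀ m : ℕ, ∃ y : I → I → ℝ, (∀ i, y i ∈ stdSimplex ℝ I ∧ y i ∈ A i) ∧
      ∀ i j, dist (y i) (y j) ≤ 1 / ((m + 1 : ℕ) : ℝ) := by
    intro m
    have hn : 1 ≤ m + 1 := by omega
    have : ∀ u : I → ℤ, ∃ i, Dom univ (m + 1) u → 0 < u i ∧ pt (m + 1) u ∈ A i := by
      intro u
      by_cases hu : Dom univ (m + 1) u
      · obtain ⟨i, hi, hiA⟩ := hcov _ (pt_mem hn hu)
        refine ⟨i, fun _ => ⟨?_, hiA⟩⟩
        have h0 : (0 : ℝ) < (m + 1 : ℕ) := by positivity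
        have : (0 : ℝ) < u i := by
          simp only [pt] at hi
          exact (div_pos_iff_of_pos_right h0).1 hi
        exact_mod_cast this
      · exact ⟨Classical.arbitrary I, fun h => absurd h hu⟩
    choose l hl using this
    have hsp := sperner hn l (Fintype.card I - 1) univ c
      (by have := Fintype.card_pos (α := I); rw [card_univ]; omega) hc (fun u hu => (hl u hu).1)
    obtain ⟨σ, hσ, hne⟩ := Finset.exists_ne_zero_of_sum_ne_zero (hsp ▸ one_ne_zero)
    have h := mem_S.1 hσ
    have hfull : (univ.image σ.1).image l = univ := by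
      by_contra hh; exact hne (if_neg hh)
    have : ∀ i, ∃ a, l (σ.1 a) = i := by
      intro i
      have : i ∈ (univ.image σ.1).image l := by rw [hfull]; exact mem_univ i
      rw [Finset.image_image] at this
      obtain ⟨a, -, ha⟩ := mem_image.1 this
      exact ⟨a, ha⟩
    choose a ha using this
    refine ⟨fun i => pt (m + 1) (σ.1 (a i)), fun i => ⟨pt_mem hn (h.dom _ (mem_univ _)), ?_⟩,
      fun i j => dist_pt_le hn (h.close hc (mem_univ _) (mem_univ _))
        (h.close hc (mem_univ _) (mem_univ _))⟩
    have := (hl _ (h.dom (a i) (mem_univ _))).2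
    rwa [ha] at this
  choose y hy hd using hstep
  have i0 : I := Classical.arbitrary I
  obtain ⟨x, hx, φ, hφ, hlim⟩ := (isCompact_stdSimplex ℝ I).tendsto_subseq
    (x := fun m => y m i0) (fun m => (hy m i0).1)
  refine ⟨x, hx, fun i => (hA i).mem_of_tendsto (f := fun m => y (φ m) i) (b := Filter.atTop) ?_
    (Filter.Eventually.of_forall fun m => (hy _ i).2)⟩
  refine hlim.congr_dist ?_
  refine squeeze_zero (fun m => dist_nonneg) (fun m => hd (φ m) i0 i) ?_
  have := tendsto_one_div_add_atTop_nhds_zero_nat (𝕜 := ℝ) |>.comp hφ.tendsto_atTop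
  simpa [Function.comp_def] using this

/-- Brouwer fixed point theorem for the standard simplex -/
theorem brouwer_simplex [Nonempty I] (f : (I → ℝ) → (I → ℝ))
    (hf : ContinuousOn f (stdSimplex ℝ I)) (hm : Set.MapsTo f (stdSimplex ℝ I) (stdSimplex ℝ I)) :
    ∃ x ∈ stdSimplex ℝ I, f x = x := by
  obtain ⟨x, hx, hA⟩ := kkm (fun i => stdSimplex ℝ I ∩ {x | f x i ≤ x i}) (fun i => by
    have h1 : ContinuousOn (fun x => x i - f x i) (stdSimplex ℝ I) :=
      (continuous_apply i).continuousOn.sub ((continuous_apply i).comp_continuousOn hf)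
    have := h1.preimage_isClosed_of_isClosed (isClosed_stdSimplex ℝ I) (isClosed_Ici (a := 0))
    convert this using 2
    ext x; simp) (by
    intro x hx
    by_contra hcon
    push Not at hcon
    have hle : ∀ i, x i ≤ f x i := by
      intro i
      rcases (hx.1 i).lt_or_eq with h | h
      · have := hcon i h
        simp only [Set.mem_inter_iff, Set.mem_ofPred_eq, not_and, not_le] at this
        exact (this hx).le
      · rw [← h]; exact (hm hx).1 i
    obtain ⟨i, hi⟩ : ∃ i, 0 < x i := by
      by_contra h0
      push Not at h0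
      have : ∑ i, x i ≤ 0 := Finset.sum_nonpos fun i _ => h0 i
      rw [hx.2] at this; linarith
    have := hcon i hi
    simp only [Set.mem_inter_iff, Set.mem_ofPred_eq, not_and, not_le] at this
    have hlt : ∑ i, x i < ∑ i, f x i :=
      Finset.sum_lt_sum (fun i _ => hle i) ⟨i, mem_univ _, this hx⟩
    rw [hx.2, (hm hx).2] at hlt
    exact lt_irrefl _ hlt)
  refine ⟨x, hx, ?_⟩
  have hle : ∀ i ∈ univ, f x i ≤ x i := fun i _ => (hA i).2
  have := (Finset.sum_eq_sum_iff_of_le hle).1 (by rw [hx.2, (hm hx).2])
  funext i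
  exact this i (mem_univ i)

/-- Brouwer fixed point theorem for the unit cube -/
theorem brouwer_cube (f : (I → ℝ) → (I → ℝ)) (hf : ContinuousOn f (Set.Icc 0 1))
    (hm : Set.MapsTo f (Set.Icc 0 1) (Set.Icc 0 1)) : ∃ x ∈ Set.Icc (0 : I → ℝ) 1, f x = x := by
  set N : ℝ := Fintype.card I + 1 with hN
  have hN0 : 0 < N := by positivity
  let cl : (Option I → ℝ) → (I → ℝ) := fun x i => max 0 (min 1 (N * x (some i)))
  let bk : (I → ℝ) → (Option I → ℝ) := fun y o =>
    match o with
    | none => 1 - ∑ i, y i / N
    | some i => y i / N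
  have hcl : Continuous cl := by
    refine continuous_pi fun i => ?_
    simp only [cl]; fun_prop
  have hbk : Continuous bk := by
    refine continuous_pi fun o => ?_
    cases o <;> simp only [bk] <;> fun_prop
  have hclm : ∀ x, cl x ∈ Set.Icc (0 : I → ℝ) 1 := fun x =>
    ⟨fun i => le_max_left _ _, fun i => max_le zero_le_one (min_le_left _ _)⟩
  have hbkm : ∀ y ∈ Set.Icc (0 : I → ℝ) 1, bk y ∈ stdSimplex ℝ (Option I) := by
    intro y hy
    refine ⟨fun o => ?_, ?_⟩
    · cases o with
      | none =>
        simp only [bk]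
        have : ∑ i, y i / N ≤ ∑ i : I, 1 / N :=
          Finset.sum_le_sum fun i _ => div_le_div_of_nonneg_right (hy.2 i) hN0.le
        rw [Finset.sum_const, card_univ, nsmul_eq_mul] at this
        have h2 : (Fintype.card I : ℝ) * (1 / N) ≤ 1 := by
          rw [mul_one_div, div_le_one hN0]; linarith
        linarith
      | some i => exact div_nonneg (hy.1 i) hN0.le
    · rw [Fintype.sum_option]; simp [bk]
  obtain ⟨x, hx, hfx⟩ := brouwer_simplex (fun x => bk (f (cl x)))
    (hbk.comp_continuousOn (hf.comp hcl.continuousOn fun x _ => hclm x))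
    (fun x _ => hbkm _ (hm (hclm x)))
  refine ⟨cl x, hclm x, ?_⟩
  funext i
  have h1 : f (cl x) i / N = x (some i) := congrFun hfx (some i)
  have h2 : N * x (some i) = f (cl x) i := by rw [← h1]; field_simp
  have h3 := hm (hclm x)
  show f (cl x) i = max 0 (min 1 (N * x (some i)))
  have h4 : f (cl x) i ≤ 1 := h3.2 i
  have h5 : 0 ≤ f (cl x) i := h3.1 i
  rw [h2, min_eq_right h4, max_eq_right h5]

/-- Poincare-Miranda theorem -/
theorem poincare_miranda {a b : I → ℝ} (hab : a ≤ b) (f : (I → ℝ) → (I → ℝ))
    (hf : ContinuousOn f (Set.Icc a b))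
    (ha : ∀ x ∈ Set.Icc a b, ∀ i, x i = a i → f x i ≤ 0)
    (hb : ∀ x ∈ Set.Icc a b, ∀ i, x i = b i → 0 ≤ f x i) :
    ∃ x ∈ Set.Icc a b, f x = 0 := by
  let φ : (I → ℝ) → (I → ℝ) := fun t i => a i + (b i - a i) * t i
  have hφ : Continuous φ := by
    refine continuous_pi fun i => ?_
    simp only [φ]; fun_prop
  have hφm : Set.MapsTo φ (Set.Icc 0 1) (Set.Icc a b) := by
    intro t ht
    refine ⟨fun i => ?_, fun i => ?_⟩
    · have := mul_nonneg (sub_nonneg.2 (hab i)) (ht.1 i)
      simp only [φ]; linarith
    · have := mul_le_mul_of_nonneg_left (ht.2 i) (sub_nonneg.2 (hab i))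
      simp only [φ, Pi.one_apply] at this ⊢; linarith
  let g : (I → ℝ) → (I → ℝ) := fun t i => max 0 (min 1 (t i - f (φ t) i))
  have hg : ContinuousOn g (Set.Icc 0 1) := by
    refine continuousOn_pi.2 fun i => ?_
    have h1 : ContinuousOn (fun t => f (φ t) i) (Set.Icc 0 1) :=
      (continuous_apply i).comp_continuousOn (hf.comp hφ.continuousOn hφm)
    have h2 : Continuous (fun r : ℝ => max 0 (min 1 r)) := by fun_prop
    exact h2.comp_continuousOn ((continuous_apply i).continuousOn.sub h1)
  obtain ⟨t, ht, hgt⟩ := brouwer_cube g hg (fun t _ =>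
    ⟨fun i => le_max_left _ _, fun i => max_le zero_le_one (min_le_left _ _)⟩)
  refine ⟨φ t, hφm ht, ?_⟩
  funext i
  have h1 : max 0 (min 1 (t i - f (φ t) i)) = t i := congrFun hgt i
  have h0 : 0 ≤ t i := ht.1 i
  have h1' : t i ≤ 1 := ht.2 i
  rcases lt_trichotomy (f (φ t) i) 0 with h | h | h
  · have : t i = 1 := by
      rcases le_total 1 (t i - f (φ t) i) with h' | h'
      · rw [min_eq_left h', max_eq_right zero_le_one] at h1; exact h1.symm
      · rw [min_eq_right h', max_eq_right (by linarith)] at h1; linarith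
    have := hb _ (hφm ht) i (by simp only [φ, this]; ring)
    linarith
  · exact h
  · have : t i = 0 := by
      rw [min_eq_right (by linarith)] at h1
      rcases le_total 0 (t i - f (φ t) i) with h' | h'
      · rw [max_eq_right h'] at h1; linarith
      · rw [max_eq_left h'] at h1; exact h1.symm
    have := ha _ (hφm ht) i (by simp only [φ, this]; ring)
    linarith

end Pool.Agent.Shared.Kuhn
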