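import Mathlib

/-!
Kuhn (Freudenthal, edgewise) triangulation of the dilated simplex and a mod 2 Stokes formula.

A simplex of the triangulation of the face `J` is a family of vertices `v a` (`a ∈ J`) and a
permutation `s` with `v (s a) = v a + e (c a) - e a`, where `c` is a fixed cyclic order of `J`.
-/

set_option autoImplicit false
set_option linter.unusedSectionVars false
set_option linter.unusedVariables false

namespace Pool.Agent.Shared.Kuhn

open Finset Equiv

variable {I : Type*} [Fintype I] [DecidableEq I]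

/-- unit vector -/
def e (a : I) : I → ℤ := fun x => if x = a then 1 else 0

/-- lattice points of the face `J` of the simplex dilated by `n` -/
structure Dom (J : Finset I) (n : ℕ) (u : I → ℤ) : Prop where
  nonneg : ∀ x, 0 ≤ u x
  supp : ∀ x, x ∉ J → u x = 0
  sum : ∑ x, u x = n

/-- `c` is a cyclic order of `J` -/
structure Cyc (J : Finset I) (c : Perm I) : Prop where
  fix : ∀ a, a ∉ J → c a = a
  conn : ∀ B : Finset I, B ⊆ J → (∀ a ∈ B, c a ∈ B) → B = ∅ ∨ B = J

/-- simplices of the triangulation -/
structure IsS (J : Finset I) (c : Perm I) (n : ℕ) (σ : (I → I → ℤ) × Perm I) : Prop where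
  fix : ∀ a, a ∉ J → σ.2 a = a
  zero : ∀ a, a ∉ J → σ.1 a = 0
  dom : ∀ a ∈ J, Dom J n (σ.1 a)
  step : ∀ a ∈ J, σ.1 (σ.2 a) = σ.1 a + e (c a) - e a

open Classical in
/-- the finite set of simplices -/
noncomputable def S (J : Finset I) (c : Perm I) (n : ℕ) : Finset ((I → I → ℤ) × Perm I) :=
  ((Fintype.piFinset fun _ : I => Fintype.piFinset fun _ : I => Finset.Icc (0 : ℤ) n) ×ˢ
    (univ : Finset (Perm I))).filter (IsS J c n)

lemma Dom.le {J : Finset I} {n : ℕ} {u : I → ℤ} (h : Dom J n u) (x : I) : u x ≤ n := by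
  rw [← h.sum]
  exact Finset.single_le_sum (fun i _ => h.nonneg i) (mem_univ x)

lemma mem_S {J : Finset I} {c : Perm I} {n : ℕ} {σ : (I → I → ℤ) × Perm I} :
    σ ∈ S J c n ↔ IsS J c n σ := by
  classical
  unfold S
  rw [mem_filter]
  refine ⟨fun h => h.2, fun h => ⟨?_, h⟩⟩
  simp only [mem_product, Fintype.mem_piFinset, mem_Icc, mem_univ, and_true]
  intro a x
  by_cases ha : a ∈ J
  · exact ⟨(h.dom a ha).nonneg x, (h.dom a ha).le x⟩
  · rw [h.zero a ha]; simp

omit [Fintype I] [DecidableEq I] in
lemma mem_of_fix {J : Finset I} {s : Perm I} (h : ∀ a, a ∉ J → s a = a) {a : I} (ha : a ∈ J) :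
    s a ∈ J := by
  by_contra hn
  have := s.injective (h _ hn)
  exact hn (this.symm ▸ ha)

omit [Fintype I] [DecidableEq I] in
lemma symm_mem_of_fix {J : Finset I} {s : Perm I} (h : ∀ a, a ∉ J → s a = a) {a : I}
    (ha : a ∈ J) : s.symm a ∈ J := by
  by_contra hn
  have := h _ hn
  rw [Equiv.apply_symm_apply] at this
  exact hn (this ▸ ha)

lemma sum_e (a : I) : ∑ x, e a x = 1 := by simp [e]

omit [Fintype I] in
lemma Cyc.ne {J : Finset I} {c : Perm I} (hc : Cyc J c) (h2 : 2 ≤ J.card) {a : I} (ha : a ∈ J) :
    c a ≠ a := by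
  intro h
  rcases hc.conn {a} (by simpa using ha) (by simp [h]) with h' | h'
  · simp at h'
  · rw [← h'] at h2; simp at h2

lemma IsS.cyc {J : Finset I} {c : Perm I} {n : ℕ} {σ : (I → I → ℤ) × Perm I}
    (h : IsS J c n σ) (hc : Cyc J c) : Cyc J σ.2 := by
  refine ⟨h.fix, fun B hB hs => hc.conn B hB ?_⟩
  have himg : B.image σ.2 = B := by
    apply Finset.eq_of_subset_of_card_le
    · intro x hx
      obtain ⟨a, ha, rfl⟩ := mem_image.1 hx
      exact hs a ha
    · rw [Finset.card_image_of_injective _ σ.2.injective]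
  intro a0 ha0
  have h1 : ∑ a ∈ B, σ.1 (σ.2 a) (c a0) = ∑ a ∈ B, σ.1 a (c a0) := by
    conv_rhs => rw [← himg]
    rw [Finset.sum_image (fun x _ y _ hxy => σ.2.injective hxy)]
  have h2 : ∑ a ∈ B, σ.1 (σ.2 a) (c a0) =
      ∑ a ∈ B, σ.1 a (c a0) + ∑ a ∈ B, e (c a) (c a0) - ∑ a ∈ B, e a (c a0) := by
    rw [← Finset.sum_add_distrib, ← Finset.sum_sub_distrib]
    refine Finset.sum_congr rfl fun a ha => ?_
    rw [h.step a (hB ha)]; rfl
  have h3 : ∑ a ∈ B, e (c a) (c a0) = 1 := by
    simp only [e, EmbeddingLike.apply_eq_iff_eq]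
    rw [Finset.sum_ite_eq]; simp [ha0]
  by_contra hn
  have h4 : ∑ a ∈ B, e a (c a0) = 0 := by
    simp only [e]
    rw [Finset.sum_ite_eq]; simp [hn]
  omega

/-- skip the element `j` in the cyclic order -/
def skip (c : Perm I) (j : I) : Perm I := c * swap (c.symm j) j

omit [Fintype I] in
lemma Cyc.skip {J : Finset I} {c : Perm I} (hc : Cyc J c) {j : I} (hj : j ∈ J) :
    Cyc (J.erase j) (skip c j) := by
  have hi : c.symm j ∈ J := symm_mem_of_fix hc.fix hj
  refine ⟨fun a ha => ?_, fun B hB hs => ?_⟩
  · by_cases haj : a = j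
    · subst haj; simp [Kuhn.skip]
    · have haJ : a ∉ J := fun h => ha (mem_erase.2 ⟨haj, h⟩)
      have : a ≠ c.symm j := fun h => haJ (h ▸ hi)
      simp [Kuhn.skip, swap_apply_of_ne_of_ne this haj, hc.fix a haJ]
  · have hjB : j ∉ B := fun h => by simpa using hB h
    have hBJ : B ⊆ J := hB.trans (erase_subset _ _)
    by_cases hiB : c.symm j ∈ B
    · right
      have := hc.conn (insert j B) (by
        intro x hx; rcases mem_insert.1 hx with rfl | hx
        exacts [hj, hBJ hx]) (by
        intro a ha
        rcases mem_insert.1 ha with rfl | ha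
        · have := hs _ hiB
          simp only [Kuhn.skip, Perm.coe_mul, Function.comp_apply, swap_apply_left] at this
          exact mem_insert_of_mem this
        · by_cases hai : a = c.symm j
          · rw [hai]; simp
          · have haj : a ≠ j := fun h => hjB (h ▸ ha)
            have := hs a ha
            simp only [Kuhn.skip, Perm.coe_mul, Function.comp_apply,
              swap_apply_of_ne_of_ne hai haj] at this
            exact mem_insert_of_mem this)
      rcases this with h | h
      · simp at h
      · rw [← h, erase_insert hjB]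
    · have := hc.conn B hBJ (by
        intro a ha
        have hai : a ≠ c.symm j := fun h => hiB (h ▸ ha)
        have haj : a ≠ j := fun h => hjB (h ▸ ha)
        have := hs a ha
        simpa only [Kuhn.skip, Perm.coe_mul, Function.comp_apply,
              swap_apply_of_ne_of_ne hai haj] using this)
      rcases this with h | h
      · exact Or.inl h
      · exact absurd (h ▸ hj) hjB

/-- all vertices of a simplex are within one of each other in every coordinate -/
lemma IsS.close {J : Finset I} {c : Perm I} {n : ℕ} {σ : (I → I → ℤ) × Perm I}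
    (h : IsS J c n σ) (hc : Cyc J c) {a b : I} (ha : a ∈ J) (hb : b ∈ J) (x : I) :
    σ.1 a x ≤ σ.1 b x + 1 := by
  classical
  by_cases hx : x ∈ J
  · have hs := h.cyc hc
    have h1 : ∀ a ∈ J, σ.1 a x ≤ σ.1 x x := by
      rcases hs.conn (J.filter fun a => σ.1 x x < σ.1 a x) (filter_subset _ _) (by
        intro a ha
        obtain ⟨haJ, hlt⟩ := mem_filter.1 ha
        refine mem_filter.2 ⟨mem_of_fix h.fix haJ, ?_⟩
        have hax : x ≠ a := by rintro rfl; exact lt_irrefl _ hlt
        have := congrFun (h.step a haJ) x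
        simp only [Pi.sub_apply, Pi.add_apply, e, if_neg hax] at this
        split_ifs at this <;> omega) with h0 | h0
      · intro a ha
        by_contra hlt
        have : a ∈ J.filter fun a => σ.1 x x < σ.1 a x := mem_filter.2 ⟨ha, by omega⟩
        rw [h0] at this; simp at this
      · have : x ∈ J.filter fun a => σ.1 x x < σ.1 a x := by rw [h0]; exact hx
        simp at this
    have h2 : ∀ a ∈ J, σ.1 x x ≤ σ.1 a x + 1 := by
      rcases hs.conn (J.filter fun a => σ.1 x x ≤ σ.1 a x + 1) (filter_subset _ _) (by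
        intro a ha
        obtain ⟨haJ, hlt⟩ := mem_filter.1 ha
        refine mem_filter.2 ⟨mem_of_fix h.fix haJ, ?_⟩
        have := congrFun (h.step a haJ) x
        simp only [Pi.sub_apply, Pi.add_apply, e] at this
        by_cases hxa : x = a
        · subst hxa
          split_ifs at this <;> omega
        · rw [if_neg hxa] at this
          split_ifs at this <;> omega) with h0 | h0
      · have : x ∈ J.filter fun a => σ.1 x x ≤ σ.1 a x + 1 := mem_filter.2 ⟨hx, by omega⟩
        rw [h0] at this; simp at this
      · intro a ha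
        rw [← h0] at ha
        exact (mem_filter.1 ha).2
    have := h1 a ha
    have := h2 b hb
    omega
  · rw [(h.dom a ha).supp x hx, (h.dom b hb).supp x hx]; omega

/-- the neighbour of a simplex across the facet opposite to the vertex `j` -/
def flip (c : Perm I) (p : ((I → I → ℤ) × Perm I) × I) : ((I → I → ℤ) × Perm I) × I :=
  ((Function.update (fun a => p.1.1 (swap (p.1.2.symm p.2) p.2 a)) (p.1.2.symm p.2)
      (p.1.1 (p.1.2.symm p.2) + e (c p.2) - e p.2),
    swap (p.1.2.symm p.2) p.2 * p.1.2 * swap (p.1.2.symm p.2) p.2), p.1.2.symm p.2)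

section flip
variable {J : Finset I} {c : Perm I} {n : ℕ} {v : I → I → ℤ} {s : Perm I} {j : I}

lemma flip_isS (h : IsS J c n (v, s)) (hc : Cyc J c) (h2 : 2 ≤ J.card) (hj : j ∈ J)
    (hint : v (s.symm j) j ≠ 0) : IsS J c n (flip c ((v, s), j)).1 := by
  have hs := h.cyc hc
  set i := s.symm j with hi
  have hsi : s i = j := by simp [hi]
  have hiJ : i ∈ J := symm_mem_of_fix h.fix hj
  have hij : i ≠ j := fun hh => hs.ne h2 hiJ (by simpa [hh] using hsi)
  have hfix : ∀ a, a ∉ J → s a = a := h.fix
  have hzero : ∀ a, a ∉ J → v a = 0 := h.zero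
  have hdom : ∀ a ∈ J, Dom J n (v a) := h.dom
  have hstep : ∀ a ∈ J, v (s a) = v a + e (c a) - e a := h.step
  refine ⟨fun a ha => ?_, fun a ha => ?_, fun a ha => ?_, fun a ha => ?_⟩
  · have h1 : a ≠ i := fun hh => ha (hh ▸ hiJ)
    have h2 : a ≠ j := fun hh => ha (hh ▸ hj)
    simp [flip, ← hi, swap_apply_of_ne_of_ne h1 h2, hfix a ha]
  · have h1 : a ≠ i := fun hh => ha (hh ▸ hiJ)
    have h2 : a ≠ j := fun hh => ha (hh ▸ hj)
    simp [flip, ← hi, swap_apply_of_ne_of_ne h1 h2, hzero a ha, Function.update_of_ne h1]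
  · by_cases hai : a = i
    · subst hai
      simp only [flip, ← hi, Function.update_self]
      refine ⟨fun x => ?_, fun x hx => ?_, ?_⟩
      · have h0 := (hdom _ hiJ).nonneg x
        simp only [Pi.sub_apply, Pi.add_apply, e]
        by_cases hxj : x = j
        · subst hxj
          split_ifs <;> omega
        · rw [if_neg hxj]; split_ifs <;> omega
      · have h1 : x ≠ j := fun hh => hx (hh ▸ hj)
        have h2 : x ≠ c j := fun hh => hx (hh ▸ mem_of_fix hc.fix hj)
        simp [e, h1, h2, (hdom _ hiJ).supp x hx]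
      · simp only [Pi.sub_apply, Pi.add_apply, Finset.sum_sub_distrib, Finset.sum_add_distrib,
          sum_e, (hdom _ hiJ).sum]
        ring
    · simp only [flip, ← hi, Function.update_of_ne hai]
      apply hdom
      by_cases haj : a = j
      · subst haj; simpa using hiJ
      · rwa [swap_apply_of_ne_of_ne hai haj]
  · by_cases haj : a = j
    · subst haj
      simp [flip, ← hi, hsi, Function.update_of_ne hij.symm]
    · have hne : swap i j (s (swap i j a)) ≠ i := by
        intro hh
        have : s (swap i j a) = j := by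
          have := congrArg (swap i j) hh
          simpa using this
        have h3 : swap i j a = i := s.injective (this.trans hsi.symm)
        have := congrArg (swap i j) h3
        simp at this
        exact haj this
      simp only [flip, ← hi, Perm.coe_mul, Function.comp_apply, Function.update_of_ne hne,
        swap_apply_self]
      by_cases hai : a = i
      · subst hai
        simp only [swap_apply_left, Function.update_self]
        rw [hstep j hj, ← hsi, hstep _ hiJ]
        ring
      · rw [Function.update_of_ne hai, swap_apply_of_ne_of_ne hai haj, hstep a ha]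

lemma flip_symm (hij : s.symm j ≠ j) :
    (flip c ((v, s), j)).1.2.symm (flip c ((v, s), j)).2 = j := by
  rw [Equiv.symm_apply_eq]
  simp [flip]

lemma flip_flip (h : IsS J c n (v, s)) (hj : j ∈ J) (hij : s.symm j ≠ j) :
    flip c (flip c ((v, s), j)) = ((v, s), j) := by
  have hiJ : s.symm j ∈ J := symm_mem_of_fix h.fix hj
  have hstep : ∀ a ∈ J, v (s a) = v a + e (c a) - e a := h.step
  have h1 := flip_symm (c := c) (v := v) hij
  have hs' := hstep _ hiJ
  rw [Equiv.apply_symm_apply] at hs'
  conv_lhs => rw [flip]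
  rw [h1]
  refine Prod.ext (Prod.ext ?_ ?_) rfl
  · funext a
    by_cases haj : a = j
    · subst haj
      simp [flip, Function.update_of_ne hij.symm, hs']
    · simp only [Function.update_of_ne haj, flip]
      have : swap j (s.symm j) a ≠ s.symm j := by
        intro hh
        have := congrArg (swap j (s.symm j)) hh
        simp at this
        exact haj this
      rw [Function.update_of_ne this, swap_comm j, swap_apply_self]
  · simp only [flip]
    rw [swap_comm j]
    ext a
    simp

lemma flip_facet (hfix : ∀ a, a ∉ J → s a = a) (hj : j ∈ J) :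
    (J.erase (flip c ((v, s), j)).2).image (flip c ((v, s), j)).1.1 = (J.erase j).image v := by
  have hiJ : s.symm j ∈ J := symm_mem_of_fix hfix hj
  ext u
  simp only [flip, mem_image, mem_erase]
  constructor
  · rintro ⟨a, ⟨hai, ha⟩, rfl⟩
    refine ⟨swap (s.symm j) j a, ⟨?_, ?_⟩, by rw [Function.update_of_ne hai]⟩
    · intro hh
      have := congrArg (swap (s.symm j) j) hh
      simp at this
      exact hai this
    · by_cases haj : a = j
      · subst haj; simpa using hiJ
      · rwa [swap_apply_of_ne_of_ne hai haj]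
  · rintro ⟨a, ⟨haj, ha⟩, rfl⟩
    have hne : swap (s.symm j) j a ≠ s.symm j := by
      intro hh
      have := congrArg (swap (s.symm j) j) hh
      simp at this
      exact haj this
    refine ⟨swap (s.symm j) j a, ⟨hne, ?_⟩, by rw [Function.update_of_ne hne, swap_apply_self]⟩
    by_cases hai : a = s.symm j
    · subst hai; simpa using hj
    · rwa [swap_apply_of_ne_of_ne hai haj]

lemma flip_int (h : IsS J c n (v, s)) (hc : Cyc J c) (h2 : 2 ≤ J.card) (hj : j ∈ J)
    (hij : s.symm j ≠ j) :
    (flip c ((v, s), j)).1.1 ((flip c ((v, s), j)).1.2.symm (flip c ((v, s), j)).2)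
      (flip c ((v, s), j)).2 ≠ 0 := by
  rw [flip_symm hij]
  have hiJ : s.symm j ∈ J := symm_mem_of_fix h.fix hj
  have hstep : ∀ a ∈ J, v (s a) = v a + e (c a) - e a := h.step
  have hs' := congrFun (hstep _ hiJ) (s.symm j)
  rw [Equiv.apply_symm_apply] at hs'
  have h0 : 0 ≤ v j (s.symm j) := (h.dom j hj).nonneg _
  have hne := hc.ne h2 hiJ
  simp only [Pi.sub_apply, Pi.add_apply, e, if_neg hne.symm, if_true] at hs'
  simp only [flip, Function.update_of_ne hij.symm, swap_apply_right]
  omega

lemma bd_symm (h : IsS J c n (v, s)) (hc : Cyc J c) (h2 : 2 ≤ J.card) (hj : j ∈ J)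
    (hb : v (s.symm j) j = 0) : s.symm j = c.symm j := by
  have hs := h.cyc hc
  have hiJ : s.symm j ∈ J := symm_mem_of_fix h.fix hj
  have hij : s.symm j ≠ j := fun hh => hs.ne h2 hj (by
    have : s (s.symm j) = j := by simp
    rwa [hh] at this)
  have hstep : ∀ a ∈ J, v (s a) = v a + e (c a) - e a := h.step
  have h1 := congrFun (hstep _ hiJ) j
  rw [Equiv.apply_symm_apply] at h1
  have h3 := congrFun (hstep _ hj) j
  have h0 : 0 ≤ v (s j) j := (h.dom _ (mem_of_fix h.fix hj)).nonneg _
  have hne := hc.ne h2 hj
  simp only [Pi.sub_apply, Pi.add_apply, e, if_neg hne.symm, if_neg hij.symm, if_true] at h1 h3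
  rw [Equiv.eq_symm_apply]
  by_contra hh
  rw [if_neg (fun h' => hh h'.symm)] at h1
  omega

lemma bd_zero (h : IsS J c n (v, s)) (hc : Cyc J c) (h2 : 2 ≤ J.card) (hj : j ∈ J)
    (hb : v (s.symm j) j = 0) {a : I} (ha : a ∈ J) (haj : a ≠ j) : v a j = 0 := by
  classical
  have hs := h.cyc hc
  have hci := bd_symm h hc h2 hj hb
  have hstep : ∀ a ∈ J, v (s a) = v a + e (c a) - e a := h.step
  rcases hs.conn (J.filter fun a => a ≠ j ∧ v a j ≠ 0) (filter_subset _ _) (by
    intro a ha
    obtain ⟨haJ, haj, hne⟩ := mem_filter.1 ha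
    have hai : a ≠ s.symm j := fun hh => hne (hh ▸ hb)
    refine mem_filter.2 ⟨mem_of_fix h.fix haJ, ?_, ?_⟩
    · intro hh; apply hai; rw [← hh]; simp
    · have := congrFun (hstep a haJ) j
      have hc' : j ≠ c a := by
        intro hh; apply hai; rw [hci, Equiv.eq_symm_apply]; exact hh.symm
      simp only [Pi.sub_apply, Pi.add_apply, e, if_neg hc', if_neg haj.symm] at this
      show v (s a) j ≠ 0
      omega) with h0 | h0
  · by_contra hne
    have : a ∈ J.filter fun a => a ≠ j ∧ v a j ≠ 0 := mem_filter.2 ⟨ha, haj, hne⟩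
    rw [h0] at this; simp at this
  · have : j ∈ J.filter fun a => a ≠ j ∧ v a j ≠ 0 := by rw [h0]; exact hj
    simp at this

lemma down_isS (h : IsS J c n (v, s)) (hc : Cyc J c) (h2 : 2 ≤ J.card) (hj : j ∈ J)
    (hb : v (s.symm j) j = 0) :
    IsS (J.erase j) (skip c j) n (Function.update v j 0, s * swap (c.symm j) j) := by
  have hci := bd_symm h hc h2 hj hb
  set i := c.symm j with hi
  have hsi : s i = j := by rw [← hci]; simp
  have hcij : c i = j := by simp [hi]
  have hiJ : i ∈ J := symm_mem_of_fix hc.fix hj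
  have hij : i ≠ j := fun hh => hc.ne h2 hiJ (by rw [hcij, hh])
  have hstep : ∀ a ∈ J, v (s a) = v a + e (c a) - e a := h.step
  refine ⟨fun a ha => ?_, fun a ha => ?_, fun a ha => ?_, fun a ha => ?_⟩
  · by_cases haj : a = j
    · subst haj; simp [hsi]
    · have haJ : a ∉ J := fun h => ha (mem_erase.2 ⟨haj, h⟩)
      have : a ≠ i := fun h => haJ (h ▸ hiJ)
      simp [swap_apply_of_ne_of_ne this haj, h.fix a haJ]
  · by_cases haj : a = j
    · subst haj; simp
    · have haJ : a ∉ J := fun h => ha (mem_erase.2 ⟨haj, h⟩)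
      simp only [Function.update_of_ne haj]
      exact h.zero a haJ
  · obtain ⟨haj, haJ⟩ := mem_erase.1 ha
    simp only [Function.update_of_ne haj]
    refine ⟨(h.dom a haJ).nonneg, fun x hx => ?_, (h.dom a haJ).sum⟩
    by_cases hxj : x = j
    · subst hxj; exact bd_zero h hc h2 hj hb haJ haj
    · exact (h.dom a haJ).supp x fun hh => hx (mem_erase.2 ⟨hxj, hh⟩)
  · obtain ⟨haj, haJ⟩ := mem_erase.1 ha
    have hne : s (swap i j a) ≠ j := by
      intro hh
      have h3 : swap i j a = i := s.injective (hh.trans hsi.symm)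
      have := congrArg (swap i j) h3
      simp at this
      exact haj this
    simp only [Perm.coe_mul, Function.comp_apply, Function.update_of_ne hne,
      Function.update_of_ne haj, skip, ← hi]
    by_cases hai : a = i
    · subst hai
      simp only [swap_apply_left]
      rw [hstep j hj, ← hsi, hstep _ hiJ, hcij, hsi]
      ring
    · rw [swap_apply_of_ne_of_ne hai haj, hstep a haJ]

lemma up_isS (h : IsS (J.erase j) (skip c j) n (v, s)) (hc : Cyc J c) (h2 : 2 ≤ J.card)
    (hj : j ∈ J) (hn : 1 ≤ n) :
    IsS J c n (Function.update v j (v (c.symm j) + e j - e (c.symm j)),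
      s * swap (c.symm j) j) := by
  set i := c.symm j with hi
  have hcij : c i = j := by simp [hi]
  have hiJ : i ∈ J := symm_mem_of_fix hc.fix hj
  have hij : i ≠ j := fun hh => hc.ne h2 hiJ (by rw [hcij, hh])
  have hiE : i ∈ J.erase j := mem_erase.2 ⟨hij, hiJ⟩
  have hsj : s j = j := h.fix j (by simp)
  have hstep : ∀ a ∈ J.erase j, v (s a) = v a + e (skip c j a) - e a := h.step
  have hdom : ∀ a ∈ J.erase j, Dom (J.erase j) n (v a) := h.dom
  have hski : skip c j i = c j := by simp [skip, ← hi]
  have hne : ∀ a, a ≠ j → s a ≠ j := fun a ha hh => ha (s.injective (hh.trans hsj.symm))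
  refine ⟨fun a ha => ?_, fun a ha => ?_, fun a ha => ?_, fun a ha => ?_⟩
  · have h1 : a ≠ i := fun hh => ha (hh ▸ hiJ)
    have h2 : a ≠ j := fun hh => ha (hh ▸ hj)
    have := h.fix a (fun hh => ha (mem_of_mem_erase hh))
    simpa [swap_apply_of_ne_of_ne h1 h2] using this
  · have h2 : a ≠ j := fun hh => ha (hh ▸ hj)
    simp only [Function.update_of_ne h2]
    exact h.zero a (fun hh => ha (mem_of_mem_erase hh))
  · by_cases haj : a = j
    · subst haj
      simp only [Function.update_self]
      have hpos : 1 ≤ v i i := by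
        by_cases hcj : c a = i
        · have hJ : ({i, a} : Finset I) = J := by
            rcases hc.conn {i, a} (by
              intro x hx
              rcases mem_insert.1 hx with rfl | hx
              · exact hiJ
              · rw [mem_singleton.1 hx]; exact hj) (by
              intro x hx
              rcases mem_insert.1 hx with rfl | hx
              · simp [hcij]
              · rw [mem_singleton.1 hx, hcj]; simp) with h0 | h0
            · simp at h0
            · exact h0
          have hsum := (hdom i hiE).sum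
          rw [Finset.sum_eq_single i] at hsum
          · omega
          · intro x _ hx
            apply (hdom i hiE).supp
            rw [← hJ]
            simp only [mem_erase, mem_insert, mem_singleton]
            tauto
          · simp
        · have := congrFun (hstep i hiE) i
          have h0 : 0 ≤ v (s i) i := (hdom _ (mem_of_fix h.fix hiE)).nonneg i
          simp only [Pi.sub_apply, Pi.add_apply, e, hski, if_neg (Ne.symm hcj), if_true] at this
          omega
      refine ⟨fun x => ?_, fun x hx => ?_, ?_⟩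
      · have h0 := (hdom _ hiE).nonneg x
        simp only [Pi.sub_apply, Pi.add_apply, e]
        by_cases hxi : x = i
        · subst hxi
          split_ifs <;> omega
        · rw [if_neg hxi]; split_ifs <;> omega
      · have h1 : x ≠ a := fun hh => hx (hh ▸ hj)
        have h2 : x ≠ i := fun hh => hx (hh ▸ hiJ)
        simp [e, h1, h2, (hdom _ hiE).supp x (fun hh => hx (mem_of_mem_erase hh))]
      · simp only [Pi.sub_apply, Pi.add_apply, Finset.sum_sub_distrib, Finset.sum_add_distrib,
          sum_e, (hdom _ hiE).sum]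
        ring
    · simp only [Function.update_of_ne haj]
      have := hdom a (mem_erase.2 ⟨haj, ha⟩)
      exact ⟨this.nonneg, fun x hx => this.supp x (fun hh => hx (mem_of_mem_erase hh)), this.sum⟩
  · simp only [Perm.coe_mul, Function.comp_apply]
    by_cases haj : a = j
    · subst haj
      simp only [swap_apply_right, Function.update_self, Function.update_of_ne (hne i hij)]
      rw [hstep i hiE, hski]; ring
    · by_cases hai : a = i
      · subst hai
        simp [hsj, Function.update_of_ne haj, hcij]
      · rw [swap_apply_of_ne_of_ne hai haj, Function.update_of_ne (hne a haj),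
          Function.update_of_ne haj, hstep a (mem_erase.2 ⟨haj, ha⟩)]
        simp [skip, ← hi, swap_apply_of_ne_of_ne hai haj]

end flip

omit [Fintype I] in
lemma image_update_erase {β : Type*} [DecidableEq β] (J : Finset I) (j : I) (v : I → β) (y : β) :
    (J.erase j).image (Function.update v j y) = (J.erase j).image v := by
  apply Finset.image_congr
  intro a ha
  exact Function.update_of_ne (mem_erase.1 ha).1 _ _

/-- mod 2 Stokes formula: the boundary of the triangulated simplex is the sum of its faces -/
theorem stokes {J : Finset I} {c : Perm I} {n : ℕ} (hc : Cyc J c) (h2 : 2 ≤ J.card) (hn : 1 ≤ n)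
    (G : Finset (I → ℤ) → ZMod 2) :
    ∑ σ ∈ S J c n, ∑ j ∈ J, G ((J.erase j).image σ.1) =
      ∑ j ∈ J, ∑ τ ∈ S (J.erase j) (skip c j) n, G ((J.erase j).image τ.1) := by
  classical
  have hne : ∀ {v : I → I → ℤ} {s : Perm I} {j : I}, IsS J c n (v, s) → j ∈ J → s.symm j ≠ j := by
    intro v s j h hj hh
    exact (h.cyc hc).ne h2 hj (by
      have : s (s.symm j) = j := by simp
      rwa [hh] at this)
  rw [← Finset.sum_product', ← Finset.sum_filter_add_sum_filter_not (S J c n ×ˢ J)
    (fun p => p.1.1 (p.1.2.symm p.2) p.2 = 0)]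
  have hint : ∑ p ∈ (S J c n ×ˢ J).filter (fun p => ¬ p.1.1 (p.1.2.symm p.2) p.2 = 0),
      G ((J.erase p.2).image p.1.1) = 0 := by
    refine Finset.sum_involution (fun p _ => flip c p) ?_ ?_ ?_ ?_
    · rintro ⟨⟨v, s⟩, j⟩ hp
      simp only [mem_filter, mem_product, mem_S] at hp
      rw [flip_facet hp.1.1.fix hp.1.2]
      exact CharTwo.add_self_eq_zero _
    · rintro ⟨⟨v, s⟩, j⟩ hp _ hh
      simp only [mem_filter, mem_product, mem_S] at hp
      exact hne hp.1.1 hp.1.2 (congrArg Prod.snd hh)
    · rintro ⟨⟨v, s⟩, j⟩ hp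
      simp only [mem_filter, mem_product, mem_S] at hp ⊢
      exact ⟨⟨flip_isS hp.1.1 hc h2 hp.1.2 hp.2, symm_mem_of_fix hp.1.1.fix hp.1.2⟩,
        flip_int hp.1.1 hc h2 hp.1.2 (hne hp.1.1 hp.1.2)⟩
    · rintro ⟨⟨v, s⟩, j⟩ hp
      simp only [mem_filter, mem_product, mem_S] at hp
      exact flip_flip hp.1.1 hp.1.2 (hne hp.1.1 hp.1.2)
  rw [hint, add_zero, Finset.sum_filter, Finset.sum_product_right]
  refine Finset.sum_congr rfl fun j hj => ?_
  rw [← Finset.sum_filter]
  refine Finset.sum_nbij' (fun σ => (Function.update σ.1 j 0, σ.2 * swap (c.symm j) j))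
    (fun τ => (Function.update τ.1 j (τ.1 (c.symm j) + e j - e (c.symm j)),
      τ.2 * swap (c.symm j) j)) ?_ ?_ ?_ ?_ ?_
  · rintro ⟨v, s⟩ hp
    simp only [mem_filter, mem_S] at hp ⊢
    exact down_isS hp.1 hc h2 hj hp.2
  · rintro ⟨v, s⟩ hp
    simp only [mem_filter, mem_S] at hp ⊢
    refine ⟨up_isS hp hc h2 hj hn, ?_⟩
    have hiJ : c.symm j ∈ J := symm_mem_of_fix hc.fix hj
    have hij : c.symm j ≠ j := fun hh => hc.ne h2 hj (by
      have : c (c.symm j) = j := by simp
      rwa [hh] at this)
    have hsj : s j = j := hp.fix j (by simp)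
    have : (s * swap (c.symm j) j).symm j = c.symm j := by
      rw [Equiv.symm_apply_eq]; simp [hsj]
    rw [this, Function.update_of_ne hij]
    exact (hp.dom _ (mem_erase.2 ⟨hij, hiJ⟩)).supp j (by simp)
  · rintro ⟨v, s⟩ hp
    simp only [mem_filter, mem_S] at hp
    have hci := bd_symm hp.1 hc h2 hj hp.2
    have hiJ : c.symm j ∈ J := symm_mem_of_fix hc.fix hj
    have hij : c.symm j ≠ j := hci ▸ hne hp.1 hj
    refine Prod.ext ?_ ?_
    · simp only [Function.update_idem, Function.update_of_ne hij]
      have := hp.1.step _ hiJ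
      simp only [Equiv.apply_symm_apply] at this
      rw [← this, ← hci]
      simp
    · simp [mul_assoc]
  · rintro ⟨v, s⟩ hp
    simp only [mem_S] at hp
    refine Prod.ext ?_ ?_
    · simp only [Function.update_idem]
      have : v j = 0 := hp.zero j (by simp)
      rw [← this]; simp
    · simp [mul_assoc]
  · rintro ⟨v, s⟩ _
    simp only [image_update_erase]

end Pool.Agent.Shared.Kuhn
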